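import Pool.Agent.N352.PF.Cnt
import Pool.Agent.N783.PF.Def

/-!
# Many polynomials in the family, over a number field

Project PF (helper783, part of helper352), part FAM; port of the version over `ℤ` by helper316.
-/

set_option autoImplicit false
set_option linter.all false

open Polynomial NumberField IsDedekindDomain
open scoped Classical

namespace Pool.Agent.N951.PF

open Pool.Agent.N352.PJ (dd pol dis Dy D2)
open Pool.Agent.N352.PF (dg Bal nv rv Bz Bx S_BX S_SML S_WK S_STR S_DSC S_GF S_PF)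
open Pool.Agent.N783.PF (Bd Cg sp rd Ht GoodS GoodF Fam S_FAM)

section pol

variable {g : ℕ} {R : Type} [CommRing R] [Nontrivial R]

theorem pol_coeff (a : Fin (2 * g) → R) (n : ℕ) :
    (pol a).coeff n = if n = 2 * g + 1 then 1 else if h : n < 2 * g then a ⟨n, h⟩ else 0 := by
  have h1 : (∑ j : Fin (2 * g), C (a j) * X ^ (j : ℕ) : R[X]).coeff n =
      if h : n < 2 * g then a ⟨n, h⟩ else 0 := by
    rw [Polynomial.finset_sum_coeff]
    simp only [coeff_C_mul, coeff_X_pow, mul_ite, mul_one, mul_zero]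
    split_ifs with h
    · rw [Finset.sum_eq_single (⟨n, h⟩ : Fin (2 * g))]
      · simp
      · intro b _ hb
        rw [if_neg]
        intro hn
        exact hb (Fin.ext hn.symm)
      · intro hh
        exact absurd (Finset.mem_univ _) hh
    · apply Finset.sum_eq_zero
      intro b _
      rw [if_neg]
      have := b.2
      omega
  rw [pol, coeff_add, h1, coeff_X_pow]
  by_cases h2 : n = 2 * g + 1
  · rw [if_pos h2, if_pos h2, dif_neg (by omega), add_zero]
  · rw [if_neg h2, if_neg h2, zero_add]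

theorem pol_coeff_lt (a : Fin (2 * g) → R) (j : Fin (2 * g)) : (pol a).coeff j = a j := by
  rw [pol_coeff, if_neg (by have := j.2; omega), dif_pos j.2]

theorem pol_coeff_top (a : Fin (2 * g) → R) : (pol a).coeff (2 * g + 1) = 1 := by
  rw [pol_coeff, if_pos rfl]

theorem pol_coeff_tr (a : Fin (2 * g) → R) : (pol a).coeff (2 * g) = 0 := by
  rw [pol_coeff, if_neg (by omega), dif_neg (by omega)]

theorem pol_coeff_gt (a : Fin (2 * g) → R) {n : ℕ} (h : 2 * g + 1 < n) : (pol a).coeff n = 0 := by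
  rw [pol_coeff, if_neg (by omega), dif_neg (by omega)]

theorem pol_natDegree (a : Fin (2 * g) → R) : (pol a).natDegree = 2 * g + 1 := by
  apply Polynomial.natDegree_eq_of_le_of_coeff_ne_zero
  · rw [Polynomial.natDegree_le_iff_coeff_eq_zero]
    intro n hn
    exact pol_coeff_gt a hn
  · rw [pol_coeff_top]
    exact one_ne_zero

theorem pol_monic (a : Fin (2 * g) → R) : (pol a).Monic := by
  rw [Polynomial.Monic, Polynomial.leadingCoeff, pol_natDegree, pol_coeff_top]

theorem pol_inj : Function.Injective (pol : (Fin (2 * g) → R) → R[X]) := by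
  intro a b h
  funext j
  rw [← pol_coeff_lt a j, ← pol_coeff_lt b j, h]

/-- congruence of polynomials of the given shape -/
theorem cg_pol (a : Fin (2 * g) → R) {f : R[X]} (hm : f.Monic) (hd : f.natDegree = 2 * g + 1)
    (ht : f.coeff (2 * g) = 0) (I : Ideal R) (h : ∀ j : Fin (2 * g), a j - f.coeff j ∈ I) :
    ∀ n, (pol a).coeff n - f.coeff n ∈ I := by
  intro n
  rcases Nat.lt_trichotomy n (2 * g) with h1 | h1 | h1
  · have h2 := h ⟨n, h1⟩
    rw [← pol_coeff_lt a] at h2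
    exact h2
  · rw [h1, pol_coeff_tr, ht, sub_zero]
    exact Ideal.zero_mem _
  · rcases Nat.lt_or_ge (2 * g + 1) n with h3 | h3
    · rw [pol_coeff_gt a h3, Polynomial.coeff_eq_zero_of_natDegree_lt (by omega), sub_zero]
      exact Ideal.zero_mem _
    · have h4 : n = 2 * g + 1 := by omega
      have h5 : f.coeff (2 * g + 1) = 1 := by
        rw [← hd]
        exact hm
      rw [h4, pol_coeff_top, h5, sub_self]
      exact Ideal.zero_mem _

end pol

section ht

variable {g : ℕ} {F : Type} [Field F] [NumberField F]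

theorem ht_pol {B : ℕ} {a : Fin (2 * g) → 𝓞 F} (ha : a ∈ Bz F g B) : Ht g B (pol a) := by
  refine ⟨pol_monic a, pol_natDegree a, pol_coeff_tr a, fun j hj => ?_⟩
  rcases Nat.lt_or_ge j (2 * g) with h | h
  · have h1 := ha ⟨j, h⟩
    rw [← pol_coeff_lt a] at h1
    intro σ
    have h2 := h1 σ
    push_cast at h2
    exact h2
  · have h1 : j = 2 * g := by omega
    rw [h1, pol_coeff_tr]
    intro σ
    simp

theorem eq_pol {B : ℕ} {f : (𝓞 F)[X]} (hf : Ht g B f) :
    f = pol fun j : Fin (2 * g) => f.coeff j := by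
  ext n
  congr 1
  rw [pol_coeff]
  split_ifs with h1 h2
  · rw [h1, ← hf.deg]
    exact hf.mon
  · rfl
  · rcases Nat.lt_or_ge (2 * g) n with h3 | h3
    · apply Polynomial.coeff_eq_zero_of_natDegree_lt
      rw [hf.deg]
      omega
    · have h4 : n = 2 * g := by omega
      rw [h4, hf.tr]

theorem bz_coeff {B : ℕ} {f : (𝓞 F)[X]} (hf : Ht g B f) :
    (fun j : Fin (2 * g) => f.coeff j) ∈ Bz F g B := by
  intro j σ
  have h1 := hf.ht j (by have := j.2; omega) σ
  push_cast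
  exact h1

end ht

/-- Chinese remainder theorem -/
theorem crt {R : Type} [CommRing R] (W : ℕ) (S : Finset ℕ) (hS : ∀ q ∈ S, q.Prime ∧ ¬ q ∣ W)
    (a : R) (b : ℕ → R) :
    ∃ x : R, (W : R) ∣ x - a ∧ ∀ q ∈ S, (q : R) ∣ x - b q := by
  induction S using Finset.induction_on with
  | empty => exact ⟨a, by simp, by simp⟩
  | insert p S hp ih =>
    obtain ⟨x, hx1, hx2⟩ := ih fun q hq => hS q (Finset.mem_insert_of_mem hq)
    obtain ⟨hpp, hpW⟩ := hS p (Finset.mem_insert_self p S)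
    have h1 : Nat.Coprime (W * ∏ q ∈ S, q) p := by
      rw [Nat.coprime_comm, Nat.Prime.coprime_iff_not_dvd hpp, Nat.Prime.dvd_mul hpp]
      rintro (h | h)
      · exact hpW h
      · obtain ⟨q, hq, hpq⟩ := (Prime.dvd_finset_prod_iff hpp.prime _).1 h
        have h2 := (Nat.prime_dvd_prime_iff_eq hpp (hS q (Finset.mem_insert_of_mem hq)).1).1 hpq
        rw [h2] at hp
        exact hp hq
    obtain ⟨u, v, huv0⟩ := (Nat.isCoprime_iff_coprime.2 h1)
    have huv : (u : R) * ((W * ∏ q ∈ S, q : ℕ) : R) + (v : R) * (p : R) = 1 := by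
      have := congrArg (Int.cast : ℤ → R) huv0
      push_cast at this ⊢
      exact this
    refine ⟨x + ((W * ∏ q ∈ S, q : ℕ) : R) * (u * (b p - x)), ?_, ?_⟩
    · have h2 : x + ((W * ∏ q ∈ S, q : ℕ) : R) * (u * (b p - x)) - a =
          (x - a) + (W : R) * (((∏ q ∈ S, q : ℕ) : R) * (u * (b p - x))) := by
        push_cast
        ring
      rw [h2]
      exact dvd_add hx1 (dvd_mul_right _ _)
    · intro q hq
      rcases Finset.mem_insert.1 hq with rfl | hq
      · have h2 : x + ((W * ∏ q ∈ S, q : ℕ) : R) * (u * (b q - x)) - b q =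
            (q : R) * (v * (x - b q)) := by
          linear_combination (b q - x) * huv
        rw [h2]
        exact dvd_mul_right _ _
      · have h3 : ((W * ∏ q ∈ S, q : ℕ) : R) = q * ((W * ∏ r ∈ S.erase q, r : ℕ) : R) := by
          rw [← Finset.mul_prod_erase S (fun q => q) hq]
          push_cast
          ring
        have h2 : x + ((W * ∏ q ∈ S, q : ℕ) : R) * (u * (b p - x)) - b q =
            (x - b q) + (q : R) * (((W * ∏ r ∈ S.erase q, r : ℕ) : R) * (u * (b p - x))) := by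
          rw [h3]
          ring
        rw [h2]
        exact dvd_add (hx2 q hq) (dvd_mul_right _ _)

/-- irreducible polynomials over a finite field are separable -/
theorem sep_of_irr {R : Type} [CommRing R] [IsDomain R] [Finite R] {f : R[X]}
    (hf : Irreducible f) : f.Separable := by
  letI := Fintype.ofFinite R
  letI : Field R := Fintype.fieldOfDomain R
  exact PerfectField.separable_of_irreducible hf

/-- The reduction `X * h q` is separable. -/
theorem sep_X_mul {R : Type} [CommRing R] [IsDomain R] [Finite R] {h : R[X]}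
    (hi : Irreducible h) (hd : h.natDegree ≠ 1) : (X * h).Separable := by
  letI := Fintype.ofFinite R
  letI : Field R := Fintype.fieldOfDomain R
  refine Polynomial.Separable.mul Polynomial.separable_X
    (PerfectField.separable_of_irreducible hi) ?_
  rw [(Polynomial.irreducible_X).coprime_iff_not_dvd]
  intro h3
  have h4 : Associated (X : R[X]) h := Polynomial.irreducible_X.associated_of_dvd hi h3
  have h5 := Polynomial.natDegree_eq_of_degree_eq (Polynomial.degree_eq_degree_of_associated h4)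
  rw [Polynomial.natDegree_X] at h5
  exact hd h5.symm

/-- a prime ideal which contains a natural number contains a prime factor of it -/
theorem prime_factor {R : Type} [CommRing R] (𝔭 : Ideal R) (hp : 𝔭.IsPrime) (n : ℕ) :
    0 < n → (n : R) ∈ 𝔭 → ∃ p : ℕ, p.Prime ∧ p ∣ n ∧ (p : R) ∈ 𝔭 := by
  induction n using Nat.strong_induction_on with
  | _ n ih =>
    intro hn hm
    rcases Nat.lt_or_ge 1 n with h1 | h1
    · obtain ⟨m, hm2⟩ := Nat.minFac_dvd n
      have hpr : (Nat.minFac n).Prime := Nat.minFac_prime (by omega)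
      have h2 : ((Nat.minFac n : ℕ) : R) * (m : R) ∈ 𝔭 := by
        rw [← Nat.cast_mul, ← hm2]
        exact hm
      rcases hp.mem_or_mem h2 with h3 | h3
      · exact ⟨_, hpr, Nat.minFac_dvd n, h3⟩
      · have hm0 : 0 < m := by
          rcases Nat.eq_zero_or_pos m with h | h
          · rw [h, mul_zero] at hm2
            omega
          · exact h
        have hmn : m < n := by
          calc m = 1 * m := (one_mul m).symm
            _ < Nat.minFac n * m := Nat.mul_lt_mul_of_pos_right hpr.one_lt hm0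
            _ = n := hm2.symm
        obtain ⟨p, hp1, hp2, hp3⟩ := ih m hmn hm0 h3
        exact ⟨p, hp1, hp2.trans ⟨Nat.minFac n, by rw [mul_comm]; exact hm2⟩, hp3⟩
    · exfalso
      have h2 : n = 1 := by omega
      rw [h2, Nat.cast_one] at hm
      exact hp.ne_top ((Ideal.eq_top_iff_one _).2 hm)

theorem fam (h1 : S_BX) (h2 : S_SML) (h3 : S_WK) (h4 : S_STR) (h5 : S_DSC) (h6 : S_GF)
    (h7 : S_PF) : Pool.Agent.N783.PF.S_FAM := by
  intro F _ _ g hg K
  obtain ⟨M, C₂, hC₂, hM⟩ := h2 F g hg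
  obtain ⟨C₁, hC₁, hBX⟩ := h1 F g
  obtain ⟨p₀, hp₀K, hp₀⟩ := Nat.exists_infinite_primes K
  obtain ⟨W, f₁, hmon, hdeg, htr, hW0, htwo, hirr, hsep, hW⟩ :=
    h6 F g (max p₀ (max M (2 * g + 1))) hg
  have hKW : K ≤ W := hp₀K.trans (Nat.le_of_dvd hW0 (hW p₀ hp₀ (le_max_left _ _)))
  have hne : ∀ (𝔭 : Ideal (𝓞 F)) (n : ℕ), 0 < n → (n : 𝓞 F) ∈ 𝔭 → 𝔭 ≠ ⊥ := by
    intro 𝔭 n hn hm h0
    rw [h0, Ideal.mem_bot] at hm
    have : n = 0 := by exact_mod_cast hm
    omega
  have hgood : GoodF g W f₁ := by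
    refine ⟨hmon, hdeg, htr, hW0, htwo, ?_, ?_⟩
    · intro 𝔭 hp h2m
      have hb : 𝔭 ≠ ⊥ := hne 𝔭 2 two_pos (by exact_mod_cast h2m)
      exact hirr ⟨𝔭, hp, hb⟩ h2m
    · intro 𝔭 hp hWm
      exact hsep ⟨𝔭, hp, hne 𝔭 W hW0 hWm⟩ hWm
  refine ⟨W, f₁, hKW, hgood, 1 / (2 * C₁ * (W : ℝ) ^ (2 * g * dg F)), by positivity,
    fun S 𝔮 h P hS => ?_⟩
  obtain ⟨Q, hQ⟩ : ∃ Q : ℕ, Q = ∏ q ∈ S, q := ⟨_, rfl⟩
  have hQ0 : 0 < Q := by
    rw [hQ]
    exact Finset.prod_pos fun q hq => (hS q hq).1.pos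
  have hWQ : 0 < W * Q := Nat.mul_pos hW0 hQ0
  -- residues
  have hcrt : ∀ j : Fin (2 * g), ∃ x : 𝓞 F, (W : 𝓞 F) ∣ x - f₁.coeff j ∧
      ∀ q ∈ S, (q : 𝓞 F) ∣ x - (P q).coeff j := fun j =>
    crt W S (fun q hq => ⟨(hS q hq).1, fun hd =>
      absurd (Nat.le_of_dvd hW0 hd) (by have := (hS q hq).2.1; omega)⟩) _ _
  choose A hA1 hA2 using hcrt
  obtain ⟨B₁, hB₁⟩ := h4 F g hg (1 / (4 * C₁ * ((W * Q : ℕ) : ℝ) ^ (2 * g * dg F))) (by positivity)
  refine ⟨max B₁ (max (C₁ * (W * Q)) (C₂ * (W * Q))), fun B hB => ?_⟩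
  have hBB1 : B₁ ≤ B := (le_max_left _ _).trans hB
  have hBC1 : C₁ * (W * Q) ≤ B := ((le_max_left _ _).trans (le_max_right _ _)).trans hB
  have hBC2 : C₂ * (W * Q) ≤ B := ((le_max_right _ _).trans (le_max_right _ _)).trans hB
  obtain ⟨hfin, hcard, -⟩ := hBX B (W * Q) A hWQ hBC1
  obtain ⟨hfin0, -, -⟩ := hBX B 1 (fun _ => 0) one_pos
    (le_trans (Nat.mul_le_mul_left C₁ hWQ) hBC1)
  have hBz : (Bz F g B).Finite := by
    refine hfin0.subset ?_
    intro a ha
    exact ⟨ha, fun j => by simp⟩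
  have hsml := hM B (W * Q) A hWQ hBC2
  have hstr := hB₁ B hBB1
  set U := Bx g B (W * Q) A with hU
  set U1 := {a ∈ U | ∃ v : HeightOneSpectrum (𝓞 F), M < nv v ∧ nv v ^ 2 < B ^ dg F ∧
    ((W * Q : ℕ) : 𝓞 F) ∉ v.asIdeal ∧ dis a ∈ v.asIdeal ^ 2} with hU1
  set U2 := {a ∈ Bz F g B | ∃ v : HeightOneSpectrum (𝓞 F), B ^ dg F ≤ nv v ^ 2 ∧
    dis a ∈ v.asIdeal ∧ D2 a ∈ v.asIdeal} with hU2
  have hU1f : U1.Finite := hfin.subset (Set.sep_subset _ _)
  have hU2f : U2.Finite := hBz.subset (Set.sep_subset _ _)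
  -- the good ones are in the family
  have key : pol '' (U \ (U1 ∪ U2)) ⊆ {f : (𝓞 F)[X] | Fam g B W f₁ S P f} := by
    rintro _ ⟨a, ⟨haU, ha⟩, rfl⟩
    have haB : a ∈ Bz F g B := haU.1
    have haR : ∀ j, ((W * Q : ℕ) : 𝓞 F) ∣ a j - A j := haU.2
    have hone : Cg (sp F W) (pol a) f₁ := by
      apply cg_pol a hmon hdeg htr
      intro j
      rw [Ideal.mem_span_singleton]
      have e1 : (W : 𝓞 F) ∣ a j - A j := dvd_trans (by push_cast; exact dvd_mul_right _ _) (haR j)
      have e2 : a j - f₁.coeff j = (a j - A j) + (A j - f₁.coeff j) := by ring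
      rw [e2]
      exact dvd_add e1 (hA1 j)
    have hcon : ∀ q ∈ S, Cg (sp F q) (pol a) (P q) := by
      intro q hq
      obtain ⟨hq1, hq2, hq3, hq4, hq5, hq6, hq7, hq8, hq9, hq10, hq11, hq12, hq13, hq14, hq15⟩ :=
        hS q hq
      apply cg_pol a hq11 hq12 hq13
      intro j
      rw [Ideal.mem_span_singleton]
      have e0 : (q : 𝓞 F) ∣ ((W * Q : ℕ) : 𝓞 F) := by
        have e3 : q ∣ W * Q := by
          rw [hQ]
          exact Dvd.dvd.mul_left (Finset.dvd_prod_of_mem (fun q => q) hq) W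
        exact Nat.cast_dvd_cast e3
      have e1 : (q : 𝓞 F) ∣ a j - A j := dvd_trans e0 (haR j)
      have e2 : a j - (P q).coeff j = (a j - A j) + (A j - (P q).coeff j) := by ring
      rw [e2]
      exact dvd_add e1 (hA2 j q hq)
    refine ⟨ht_pol haB, hone, hcon, fun 𝔭 hp hb hPd => ?_⟩
    obtain ⟨v, hv⟩ : ∃ v : HeightOneSpectrum (𝓞 F), v.asIdeal = 𝔭 := ⟨⟨𝔭, hp, hb⟩, rfl⟩
    subst hv
    have hPd' : dis a ∈ v.asIdeal ^ 2 := hPd
    have hPd1 : Pool.Agent.N352.PF.dsc g (pol a) ∈ v.asIdeal :=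
      Ideal.pow_le_self two_ne_zero hPd
    haveI : Finite (𝓞 F ⧸ v.asIdeal) := v.asIdeal.finiteQuotientOfFreeOfNeBot v.ne_bot
    haveI : IsDomain (𝓞 F ⧸ v.asIdeal) := Ideal.Quotient.isDomain v.asIdeal
    have hPW : (W : 𝓞 F) ∉ v.asIdeal := by
      intro hd
      refine h5 F g v (pol a) f₁ hg (pol_monic a) (pol_natDegree a) ?_ (hsep v hd) hPd1
      intro j
      exact (Ideal.span_singleton_le_iff_mem _).2 hd (hone j)
    have hPS : ∀ q ∈ S, (q : 𝓞 F) ∉ v.asIdeal := by
      intro q hq hd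
      obtain ⟨hq1, hq2, hq3, hq4, hq5, hq6, hq7, hq8, hq9, hq10, hq11, hq12, hq13, hq14, hq15⟩ :=
        hS q hq
      have hc : ∀ j, (pol a).coeff j - (P q).coeff j ∈ v.asIdeal := fun j =>
        (Ideal.span_singleton_le_iff_mem _).2 hd (hcon q hq j)
      by_cases hv : v.asIdeal = 𝔮 q
      · refine h5 F g v (pol a) (X * h q) hg (pol_monic a) (pol_natDegree a) ?_ ?_ hPd1
        · intro j
          have e1 : (pol a).coeff j - (X * h q).coeff j =
              ((pol a).coeff j - (P q).coeff j) + ((P q).coeff j - (X * h q).coeff j) := by ring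
          rw [e1]
          refine Ideal.add_mem _ (hc j) ?_
          rw [hv]
          exact hq14 j
        · have e1 : rv v (X * h q) = X * rv v (h q) := by
            rw [rv, rv, Polynomial.map_mul, Polynomial.map_X]
          rw [e1]
          have e2 : Irreducible (rv v (h q)) := by
            have e3 : Irreducible (rd v.asIdeal (h q)) := by
              rw [hv]
              exact hq10
            exact e3
          refine sep_X_mul e2 ?_
          rw [rv, hq8.natDegree_map, hq9]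
          omega
      · refine h5 F g v (pol a) (P q) hg (pol_monic a) (pol_natDegree a) hc ?_ hPd1
        exact sep_of_irr (hq15 v.asIdeal v.isPrime hd hv)
    have hPQ : ((W * Q : ℕ) : 𝓞 F) ∉ v.asIdeal := by
      intro hd
      rw [Nat.cast_mul] at hd
      rcases v.isPrime.mem_or_mem hd with hd | hd
      · exact hPW hd
      · rw [hQ, Nat.cast_prod] at hd
        obtain ⟨q, hq, hqm⟩ := (Ideal.IsPrime.prod_mem_iff (hp := v.isPrime)).1 hd
        exact hPS q hq hqm
    have hsmall : ∀ n : ℕ, 0 < n → (n : 𝓞 F) ∈ v.asIdeal →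
        (∀ p : ℕ, p.Prime → p ∣ n → p ≤ max p₀ (max M (2 * g + 1))) → False := by
      intro n hn hm hle
      obtain ⟨p, hp1, hp2, hp3⟩ := prime_factor v.asIdeal v.isPrime n hn hm
      have e1 := hW p hp1 (hle p hp1 hp2)
      apply hPW
      obtain ⟨m, hm⟩ := e1
      rw [hm, Nat.cast_mul]
      exact Ideal.mul_mem_right _ _ hp3
    have hfac : ((2 * g + 1).factorial : 𝓞 F) ∉ v.asIdeal := by
      intro hd
      refine hsmall _ (Nat.factorial_pos _) hd fun p hp hpd => ?_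
      exact ((hp.dvd_factorial).1 hpd).trans ((le_max_right _ _).trans (le_max_right _ _))
    have hPM1 : M < nv v := by
      by_contra hc
      have hnv2 : 2 ≤ nv v := (h7 F).2.2 v
      refine hsmall (nv v) (by omega) (Ideal.absNorm_mem v.asIdeal) fun p hp hpd => ?_
      have e1 := Nat.le_of_dvd (by omega) hpd
      exact (e1.trans (not_lt.1 hc)).trans ((le_max_left _ _).trans (le_max_right _ _))
    have hBP : B ^ dg F ≤ nv v ^ 2 := by
      by_contra hc
      exact ha (Or.inl ⟨haU, v, hPM1, not_le.1 hc, hPQ, hPd'⟩)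
    refine ⟨hBP, h3 F g v hg hfac a hPd' fun hD => ?_⟩
    exact ha (Or.inr ⟨haB, v, hBP, hPd1, hD⟩)
  -- finiteness of the family
  have hFf : {f : (𝓞 F)[X] | Fam g B W f₁ S P f}.Finite := by
    refine (hBz.image pol).subset ?_
    intro f hf
    exact ⟨fun j => f.coeff j, bz_coeff hf.ht, (eq_pol hf.ht).symm⟩
  -- counting
  have c1 : (U \ (U1 ∪ U2)).ncard ≤ {f : (𝓞 F)[X] | Fam g B W f₁ S P f}.ncard := by
    rw [← Set.ncard_image_of_injective _ pol_inj]
    exact Set.ncard_le_ncard key hFf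
  have c2 : U.ncard ≤ (U \ (U1 ∪ U2)).ncard + (U1.ncard + U2.ncard) := by
    have e1 := Set.ncard_le_ncard_diff_add_ncard U (U1 ∪ U2) (hU1f.union hU2f)
    have e2 := Set.ncard_union_le U1 U2
    omega
  have c3 : (4 : ℝ) * U1.ncard ≤ U.ncard := by exact_mod_cast hsml
  have hC0 : (0 : ℝ) < C₁ := by exact_mod_cast hC₁
  have c4 : (B : ℝ) ^ (dg F * dd g) ≤
      C₁ * U.ncard * ((W * Q : ℕ) : ℝ) ^ (2 * g * dg F) := by exact_mod_cast hcard
  have hP0 : (0 : ℝ) < ((W * Q : ℕ) : ℝ) ^ (2 * g * dg F) := by positivity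
  have c5 : (4 : ℝ) * U2.ncard ≤ U.ncard := by
    have e1 : (U2.ncard : ℝ) ≤ 1 / (4 * C₁ * ((W * Q : ℕ) : ℝ) ^ (2 * g * dg F)) *
        (C₁ * U.ncard * ((W * Q : ℕ) : ℝ) ^ (2 * g * dg F)) :=
      hstr.trans (mul_le_mul_of_nonneg_left c4 (by positivity))
    have e2 : 1 / (4 * C₁ * ((W * Q : ℕ) : ℝ) ^ (2 * g * dg F)) *
        (C₁ * U.ncard * ((W * Q : ℕ) : ℝ) ^ (2 * g * dg F)) = U.ncard / 4 := by
      field_simp
    rw [e2] at e1
    linarith
  have c6 : (U.ncard : ℝ) ≤ 2 * ({f : (𝓞 F)[X] | Fam g B W f₁ S P f}.ncard : ℝ) := by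
    have e1 : (U.ncard : ℝ) ≤ ((U \ (U1 ∪ U2)).ncard : ℝ) + (U1.ncard + U2.ncard) := by
      exact_mod_cast c2
    have e2 : ((U \ (U1 ∪ U2)).ncard : ℝ) ≤
        ({f : (𝓞 F)[X] | Fam g B W f₁ S P f}.ncard : ℝ) := by
      exact_mod_cast c1
    linarith
  have c7 : (((∏ q ∈ S, q ^ (2 * g)) ^ Module.finrank ℚ F : ℕ) : ℝ) =
      (Q : ℝ) ^ (2 * g * dg F) := by
    rw [hQ, Finset.prod_pow]
    push_cast
    rw [← pow_mul]
  rw [c7]
  have hW1 : (0 : ℝ) < (W : ℝ) ^ (2 * g * dg F) := by positivity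
  have c8 : (B : ℝ) ^ (dg F * dd g) ≤
      C₁ * (2 * ({f : (𝓞 F)[X] | Fam g B W f₁ S P f}.ncard : ℝ)) *
      ((W * Q : ℕ) : ℝ) ^ (2 * g * dg F) :=
    c4.trans (mul_le_mul_of_nonneg_right (mul_le_mul_of_nonneg_left c6 hC0.le) hP0.le)
  rw [one_div_mul_eq_div, div_le_iff₀ (by positivity)]
  refine c8.trans (le_of_eq ?_)
  push_cast
  rw [mul_pow]
  ring

end Pool.Agent.N951.PF
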